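import Pool.Agent.ZPK.StmtsG

/-!
# Squad ZPK, row PEM: primes and embeddings (helper9)
-/

set_option autoImplicit false

namespace Pool.Agent.ZPK.H9

open Polynomial Pool.Agent.ZPK Pool.Agent.ZPT Pool.Agent.ZP3

theorem pem (hPND : PndStmt) (hEMB : EmbStmt) (hURA : ZP3.URAStmt) (hKX : ZPT.KXStmt) :
    PemStmt := by
  classical
  intro m b hm hb
  obtain ⟨r₀, r₁, hr⟩ : ∃ r₀ r₁ : Fin m, r₀ ≠ r₁ :=
    ⟨⟨0, by omega⟩, ⟨1, by omega⟩, fun h => by simpa using congrArg Fin.val h⟩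
  have hb0 : ∀ r, b r ≠ 0 := fun r => hb.ne_zero r
  obtain ⟨γ, hγ⟩ : ∃ γ : Qb, γ = b r₁ / b r₀ := ⟨_, rfl⟩
  have hγ1 : γ * b r₀ = b r₁ := by rw [hγ, div_mul_cancel₀ _ (hb0 r₀)]
  have hirr : ∀ q : ℚ, γ ≠ (q : Qb) := by
    intro q hq
    have h1 := linearIndependent_iff'.1 hb {r₀, r₁} (fun i => if i = r₀ then q else -1) (by
      rw [Finset.sum_pair hr, if_pos rfl, if_neg (Ne.symm hr), ← hγ1, hq, neg_smul, one_smul,
        Rat.smul_def, add_neg_cancel]) r₁ (by simp)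
    rw [if_neg (Ne.symm hr)] at h1
    norm_num at h1
  have halg : IsAlgebraic ℤ γ := by
    have halg : Algebra.IsAlgebraic ℚ (algebraicClosure ℚ ℂ) := algebraicClosure.isAlgebraic ℚ ℂ
    have h1 : IsAlgebraic ℚ γ := halg.isAlgebraic γ
    exact (IsFractionRing.isAlgebraic_iff ℤ ℚ Qb).2 h1
  obtain ⟨N, hN0, hNint⟩ := halg.exists_integral_multiple
  obtain ⟨β, hβ⟩ : ∃ β : Qb, β = N • γ := ⟨_, rfl⟩
  have hβ1 : β = (N : Qb) * γ := by rw [hβ, zsmul_eq_mul]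
  have hNQ : (N : Qb) ≠ 0 := Int.cast_ne_zero.2 hN0
  have hβirr : ∀ r : ℚ, β ≠ (r : Qb) := by
    intro r h
    apply hirr (r / N)
    rw [Rat.cast_div, Rat.cast_intCast, ← h, hβ1, mul_div_cancel_left₀ _ hNQ]
  rw [← hβ] at hNint
  have hsum := hPND β hNint hβirr
  obtain ⟨p₀, hp₀⟩ := hURA (Finset.univ.image b ∪ {(N : Qb)})
  refine ⟨{p : ℕ | p.Prime ∧
    ¬ (Polynomial.map (Int.castRingHom (ZMod p)) (minpoly ℤ β)).Splits}, p₀,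
    fun p hp => hp.1, hsum, ?_⟩
  intro p hpF hp hpp
  have hpr : p.Prime := hpF.out
  obtain ⟨ι, hι⟩ := hEMB p hpr ℂ_[p] (hKX p) β hNint hp.2
  have hU := hp₀ p hpr hpp ℂ_[p] (hKX p) ι
  have hnb : ∀ r, ‖ι (b r)‖ = 1 := fun r =>
    (hU (b r) (by simp)).2 (hb0 r)
  have hnN : ‖ι (N : Qb)‖ = 1 := (hU (N : Qb) (by simp)).2 hNQ
  refine ⟨ι, fun r => (hnb r).le, r₀, r₁, hr, hnb r₀, fun z => ?_⟩
  have h1 : ι (N : Qb) * (ι (b r₁) - z * ι (b r₀)) = ι (b r₀) * (ι β - ((N * z : ℤ) : ℂ_[p])) := by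
    rw [← hγ1, hβ1, map_mul, map_mul, map_intCast, Int.cast_mul]
    ring
  have h2 := congrArg norm h1
  rw [norm_mul, norm_mul, hnN, hnb, hι, one_mul, one_mul] at h2
  exact h2

end Pool.Agent.ZPK.H9
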